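import Pool.Agent.Helper81.LT.Mod

/-!
Elementary substructures of an elementary substructure.
-/

namespace Pool.Agent.Helper48.LT

open FirstOrder Language Pool.Agent.Helper81.LT

section

variable {L : FirstOrder.Language.{0, 0}} {M : Type} [L.Structure M]
  (N : L.ElementarySubstructure M)

/-- a substructure of `N` as a substructure of `M` -/
def eqv (A : L.Substructure N) (K : L.Substructure M) (h : ∀ z : N, z ∈ A ↔ (z : M) ∈ K)
    (hK : ∀ m ∈ K, m ∈ N) : A ≃[L] K where
  toFun a := ⟨((a : N) : M), (h _).1 a.2⟩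
  invFun k := ⟨⟨k, hK k k.2⟩, (h _).2 k.2⟩
  left_inv _ := rfl
  right_inv _ := rfl
  map_fun' _ _ := rfl
  map_rel' _ _ := Iff.rfl

lemma key (A : L.Substructure N) (K : L.Substructure M) (h : ∀ z : N, z ∈ A ↔ (z : M) ∈ K)
    (hK : ∀ m ∈ K, m ∈ N) : A.IsElementary ↔ K.IsElementary := by
  constructor
  · intro hA n φ x
    have h1 := hA φ ((eqv N A K h hK).symm ∘ x)
    have h2 := N.isElementary φ (Subtype.val ∘ (eqv N A K h hK).symm ∘ x)
    have h3 := StrongHomClass.realize_formula (eqv N A K h hK).symm φ (v := x)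
    exact h2.trans (h1.trans h3)
  · intro hA n φ x
    have h1 := hA φ ((eqv N A K h hK) ∘ x)
    have h2 := N.isElementary φ (Subtype.val ∘ x)
    have h3 := StrongHomClass.realize_formula (eqv N A K h hK) φ (v := x)
    exact h2.symm.trans (h1.trans h3)

/-- restriction to `N` -/
def down (K : L.Substructure M) : L.Substructure N :=
  K.comap N.subtype.toEmbedding.toHom

/-- image in `M` -/
def up (A : L.Substructure N) : L.Substructure M :=
  A.map N.subtype.toEmbedding.toHom

lemma mem_down (K : L.Substructure M) (z : N) : z ∈ down N K ↔ (z : M) ∈ K := Iff.rfl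

lemma mem_up (A : L.Substructure N) (z : N) : z ∈ A ↔ (z : M) ∈ up N A := by
  constructor
  · intro h
    exact ⟨z, h, rfl⟩
  · rintro ⟨y, hy, hyz⟩
    have : y = z := Subtype.ext hyz
    rwa [← this]

lemma up_le (A : L.Substructure N) : ∀ m ∈ up N A, m ∈ N := by
  rintro m ⟨y, _, rfl⟩
  exact y.2

/-- the order isomorphism -/
def iso : {K : L.ElementarySubstructure M // K ≤ N} ≃o L.ElementarySubstructure N where
  toFun K := ⟨down N K.1.toSubstructure, (key N _ _ (mem_down N _) (fun m hm => K.2 hm)).2
    K.1.isElementary⟩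
  invFun A := ⟨⟨up N A.toSubstructure, (key N _ _ (mem_up N _) (up_le N _)).1 A.isElementary⟩,
    fun m hm => up_le N _ m hm⟩
  left_inv K := by
    apply Subtype.ext
    apply SetLike.ext
    intro m
    constructor
    · rintro ⟨y, hy, rfl⟩
      exact hy
    · intro hm
      exact ⟨⟨m, K.2 hm⟩, hm, rfl⟩
  right_inv A := by
    apply SetLike.ext
    intro z
    exact (mem_up N A.toSubstructure z).symm
  map_rel_iff' := by
    intro K1 K2
    constructor
    · intro h m hm
      exact h (show (⟨m, K1.2 hm⟩ : N) ∈ down N K1.1.toSubstructure from hm)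
    · intro h z hz
      exact h hz

end

theorem esb : ESB := fun _ _ _ N => ⟨iso N⟩

end Pool.Agent.Helper48.LT
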