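import Pool.Agent.Helper81.LT.Mod

/-!
The sets `D n` generate the type.
-/

namespace Pool.Agent.Helper48.LT

open FirstOrder Language Pool.Agent.Helper81.LT

attribute [local instance] stdStr

section

variable {Λ : Type} [Lattice Λ] [BoundedOrder Λ] {M : Type} [CommSemiring M] [LinearOrder M]

/-- finite separated spaces embed in rich sets -/
lemma embed {t : M → M → Λ} (ht : UnivT t) {D : M → Prop} (hD : Rich t D) (S : Sp Λ) (hS : Sep S) :
    ∃ p : S.A → M, (∀ a, D (p a)) ∧ ∀ a b, t (p a) (p b) = S.t a b := by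
  obtain ⟨f, hf⟩ := ht.univ S hS
  obtain ⟨B, hB⟩ := Finite.bddAbove_range f
  have hlt : ∀ a, f a < B + 1 := fun a => Nat.lt_succ_of_le (hB ⟨a, rfl⟩)
  obtain ⟨g, hg1, hg2⟩ := hD (B + 1)
  refine ⟨fun a => g (f a), fun a => hg1 _ (hlt a), fun a b => ?_⟩
  rw [hg2 _ (hlt a) _ (hlt b)]
  exact hf a b

/-- the space of `k` points with all distances `x` -/
def disc (Λ : Type) [Lattice Λ] [BoundedOrder Λ] (k : ℕ) (x : Λ) : Sp Λ where
  A := Fin k
  fin := inferInstance
  t := fun a b => if a = b then ⊤ else x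
  refl := fun a => by simp
  symm := fun a b => by
    by_cases h : a = b
    · simp [h]
    · simp [h, Ne.symm h]
  tri := fun a b c => by
    by_cases h1 : a = b
    · subst h1
      simp
    · by_cases h2 : b = c
      · subst h2
        simp [h1]
      · by_cases h3 : a = c
        · simp [h3]
        · simp [h1, h2, h3]

lemma disc_sep (k : ℕ) (x : Λ) (hx : x ≠ ⊤) : Sep (disc Λ k x) := by
  intro (a : Fin k) (b : Fin k) h
  by_contra hab
  apply hx
  change (if a = b then ⊤ else x) = ⊤ at h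
  have hab' : ¬ @Eq (Fin k) a b := hab
  rwa [if_neg hab'] at h

end

theorem genu : GENU := by
  intro Λ _ _ _ _ M _ _ _ _ t D ht hG U hU E hE hEU
  have hΘ : DefE (M := M) ⟨fun u v => (E u ↔ E v), ⟨fun _ => Iff.rfl, fun h => h.symm,
      fun h1 h2 => h1.trans h2⟩⟩ :=
    Dfn.iff (Dfn.app₁ hE (Tm.var 0)) (Dfn.app₁ hE (Tm.var 1))
  obtain ⟨n, s, hs⟩ := hG.canon _ hΘ
  have hs' : ∀ u v, D n u → D n v → ((E u ↔ E v) ↔ s ≤ t u v) := hs
  refine ⟨n, fun u hu => ?_⟩
  by_cases hbot : s = ⊥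
  · obtain ⟨u0, h1, h2⟩ := ((hU n).and hEU).exists
    have := (hs' u u0 hu h1).2 (by rw [hbot]; exact bot_le)
    exact this.2 h2
  · exfalso
    obtain ⟨p, hp1, hp2⟩ := embed ht (hG.rich n) (disc Λ 3 ⊥) (disc_sep 3 ⊥ bot_ne_top)
    have hne : ∀ a b : Fin 3, a ≠ b → ¬ (E (p a) ↔ E (p b)) := by
      intro a b hab h
      have h1 := (hs' _ _ (hp1 a) (hp1 b)).1 h
      rw [hp2 a b] at h1
      simp only [disc, hab, if_false] at h1
      exact hbot (le_bot_iff.1 h1)
    have h01 := hne 0 1 (by decide)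
    have h02 := hne 0 2 (by decide)
    have h12 := hne 1 2 (by decide)
    tauto

end Pool.Agent.Helper48.LT
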