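import Pool.Agent.Helper48.LT.GENU

/-!
The map from `Λ` to elementary substructures reflects the order.
-/

namespace Pool.Agent.Helper48.LT

open FirstOrder Language Pool.Agent.Helper81.LT

attribute [local instance] stdStr

theorem ordk (hG : GENU) (hR : RS) : ORDK := by
  intro Λ _ _ _ _ M _ _ _ _ t D ht hD U hU s s' h
  obtain ⟨r, hr1, hr2, hr3⟩ := hR Λ M t ht s
  obtain ⟨g, hg1, ⟨m, hg2⟩, hg3⟩ := h r hr1 ⟨0, fun u v _ _ huv => hr3 u v huv⟩
  have hev : ∀ᶠ v in (U : Filter M), r v = g v := Quotient.exact hg3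
  have hdef : DefS (fun v => r v = g v) := by
    have h1 : Dfn (fun v : Unit → M => ∃ y : M, r (v ()) = y ∧ g (v ()) = y) :=
      Dfn.ex (P := fun (v : Unit → M) y => r (v ()) = y ∧ g (v ()) = y)
        (Dfn.and (Dfn.app₂ (R := fun x y => r x = y) hr1 (Tm.var (Sum.inl ())) (Tm.var (Sum.inr ())))
          (Dfn.app₂ (R := fun x y => g x = y) hg1 (Tm.var (Sum.inl ())) (Tm.var (Sum.inr ()))))
    refine h1.congr fun v => ?_
    constructor
    · rintro ⟨y, h1, h2⟩
      rw [h1, h2]
    · intro h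
      exact ⟨_, h, rfl⟩
  obtain ⟨n, hn⟩ := hG Λ M t D ht hD U hU _ hdef hev
  have hanti : ∀ a b, a ≤ b → ∀ u, D b u → D a u := by
    intro a b hab
    induction hab with
    | refl => exact fun u hu => hu
    | step _ ih => exact fun u hu => ih u (hD.anti _ u hu)
  set N := max n m
  have hkey : ∀ u v, D N u → D N v → s' ≤ t u v → s ≤ t u v := by
    intro u v hu hv huv
    have e1 := hn u (hanti _ _ (le_max_left _ _) u hu)
    have e2 := hn v (hanti _ _ (le_max_left _ _) v hv)
    have e3 := hg2 u v (hanti _ _ (le_max_right _ _) u hu) (hanti _ _ (le_max_right _ _) v hv) huv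
    have e4 : r u = r v := by rw [e1, e2, e3]
    have h1 := hr2 u
    have h2 := hr2 v
    rw [← e4, ht.symm] at h2
    exact (le_inf h1 h2).trans (ht.tri u (r u) v)
  by_cases hs : s' = ⊤
  · rw [hs]
    exact le_top
  · obtain ⟨p, hp1, hp2⟩ := embed ht (hD.rich N) (disc Λ 2 s') (disc_sep 2 s' hs)
    have h0 : (disc Λ 2 s').t (0 : Fin 2) (1 : Fin 2) = s' := by
      simp [disc]
    have h1 : t (p (0 : Fin 2)) (p (1 : Fin 2)) = s' := (hp2 _ _).trans h0
    exact (hkey _ _ (hp1 _) (hp1 _) h1.ge).trans h1.le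

end Pool.Agent.Helper48.LT
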